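import Pool.Agent.N942.StackB

set_option autoImplicit false

open Finset

namespace Pool.Agent.Results.MP_59a663_pr.ConstantSparsityFails

/-- The randomness of a SparseStack: the bits `ω.1 (i, j)` choose the signs and `ω.2 (i, j)` is the
position in block `j` of row `i`.  Under the uniform law on this finite set the signs are i.i.d.
Rademacher, the positions are i.i.d. uniform, and all of these are independent. -/
abbrev Sample (n ζ b : ℕ) : Type := (Fin n × Fin ζ → Bool) × (Fin n × Fin ζ → Fin b)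

/-- The sign `+1` or `-1` of a bit. -/
def sign (s : Bool) : ℝ := if s then 1 else -1

/-- The SparseStack matrix: the columns are indexed by pairs (block, position in the block). -/
noncomputable def stack {n ζ b : ℕ} (ω : Sample n ζ b) : Matrix (Fin n) (Fin ζ × Fin b) ℝ :=
  fun i k => if ω.2 (i, k.1) = k.2 then sign (ω.1 (i, k.1)) / √(ζ : ℝ) else 0

/-- The sketch `Ωᵀ x`. -/
noncomputable def sketch {n ζ b : ℕ} (ω : Sample n ζ b) (x : EuclideanSpace ℝ (Fin n)) :
    EuclideanSpace ℝ (Fin ζ × Fin b) :=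
  WithLp.toLp 2 ((stack ω).transpose.mulVec x.ofLp)

/-- Probability under the uniform law on the sample space. -/
noncomputable def prob {n ζ b : ℕ} (S : Set (Sample n ζ b)) : ℝ :=
  (Nat.card S : ℝ) / (Nat.card (Sample n ζ b) : ℝ)

/-- Expectation under the uniform law on the sample space. -/
noncomputable def mean {n ζ b : ℕ} (f : Sample n ζ b → ℝ) : ℝ :=
  (∑ ω, f ω) / (Nat.card (Sample n ζ b) : ℝ)

/-- The SparseStack with parameters `n, ζ, b` is an oblivious subspace injection for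
`r`-dimensional subspaces, with parameter `α` and failure probability `δ`. -/
def IsOSI (n ζ b r : ℕ) (α δ : ℝ) : Prop :=
  (∀ x : EuclideanSpace ℝ (Fin n), mean (fun ω : Sample n ζ b => ‖sketch ω x‖ ^ 2) = ‖x‖ ^ 2) ∧
  ∀ V : Submodule ℝ (EuclideanSpace ℝ (Fin n)), Module.finrank ℝ V = r →
    1 - δ ≤ prob {ω : Sample n ζ b | ∀ x ∈ V, α * ‖x‖ ^ 2 ≤ ‖sketch ω x‖ ^ 2}

open Pool.Agent.N942.Stack in
theorem sign_eq (s : Bool) : sign s = sgn s := rfl

open Pool.Agent.N942.Stack in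
theorem prob_eq {n ζ b : ℕ} (S : Set (Sample n ζ b)) :
    prob S = avg (fun ω : Sample n ζ b => ind (ω ∈ S)) := by
  classical
  unfold prob avg
  rw [Nat.card_eq_fintype_card, Nat.card_eq_fintype_card]
  congr 1
  rw [Fintype.card_subtype]
  unfold ind
  rw [Finset.sum_boole]

/-- the coordinate subspace -/
def coordSub (n r : ℕ) : Submodule ℝ (EuclideanSpace ℝ (Fin n)) where
  carrier := {x | ∀ i : Fin n, r ≤ i.1 → x i = 0}
  zero_mem' := fun i _ => rfl
  add_mem' := fun {x y} hx hy i hi => by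
    show x i + y i = 0
    rw [hx i hi, hy i hi, add_zero]
  smul_mem' := fun c x hx i hi => by
    show c * x i = 0
    rw [hx i hi, mul_zero]

theorem coord_finrank {n r : ℕ} (h : r ≤ n) : Module.finrank ℝ (coordSub n r) = r := by
  let e : coordSub n r ≃ₗ[ℝ] (Fin r → ℝ) :=
    { toFun := fun x i => x.1 (Fin.castLE h i)
      map_add' := fun x y => rfl
      map_smul' := fun c x => rfl
      invFun := fun y => ⟨WithLp.toLp 2 (fun i => if hi : i.1 < r then y ⟨i.1, hi⟩ else 0),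
        fun i hi => by
          show (if hi : i.1 < r then y ⟨i.1, hi⟩ else 0) = 0
          rw [dif_neg (by omega)]⟩
      left_inv := fun x => by
        apply Subtype.ext
        ext i
        show (if hi : i.1 < r then x.1 (Fin.castLE h ⟨i.1, hi⟩) else 0) = x.1 i
        split_ifs with hi
        · rfl
        · exact (x.2 i (by omega)).symm
      right_inv := fun y => by
        funext i
        show (if hi : (Fin.castLE h i).1 < r then y ⟨(Fin.castLE h i).1, hi⟩ else 0) = y i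
        rw [dif_pos (by exact i.2)]
        rfl }
  rw [e.finrank_eq, Module.finrank_fin_fun]

/-- the sketch as a linear map -/
noncomputable def sketchL {n ζ b : ℕ} (ω : Sample n ζ b) :
    EuclideanSpace ℝ (Fin n) →ₗ[ℝ] EuclideanSpace ℝ (Fin ζ × Fin b) where
  toFun x := sketch ω x
  map_add' x y := by
    unfold sketch
    rw [WithLp.ofLp_add, Matrix.mulVec_add, WithLp.toLp_add]
  map_smul' c x := by
    unfold sketch
    rw [WithLp.ofLp_smul, Matrix.mulVec_smul, WithLp.toLp_smul, RingHom.id_apply]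

/-- too few rows: the sketch has a kernel on the subspace -/
theorem kernel_case {n ζ b r : ℕ} (hn : r ≤ n) (hk : b * ζ < r) (ω : Sample n ζ b) :
    ∃ x ∈ coordSub n r, x ≠ 0 ∧ sketch ω x = 0 := by
  have h1 : Module.finrank ℝ (EuclideanSpace ℝ (Fin ζ × Fin b)) <
      Module.finrank ℝ (coordSub n r) := by
    rw [coord_finrank hn, finrank_euclideanSpace, Fintype.card_prod, Fintype.card_fin,
      Fintype.card_fin, mul_comm]
    exact hk
  have h2 := LinearMap.ker_ne_bot_of_finrank_lt (f := (sketchL ω).comp (coordSub n r).subtype) h1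
  obtain ⟨x, hx, hx0⟩ := Submodule.exists_mem_ne_zero_of_ne_bot h2
  refine ⟨x.1, x.2, fun h => hx0 (Subtype.ext h), ?_⟩
  exact hx

open Pool.Agent.N942.Stack in
theorem sketch_norm {n ζ b : ℕ} (hζ : 0 < ζ) (ω : Sample n ζ b) (x : EuclideanSpace ℝ (Fin n)) :
    ‖sketch ω x‖ ^ 2 = (1 / (ζ : ℝ)) * ∑ j : Fin ζ, ∑ c : Fin b,
      (∑ i, (if ω.2 (i, j) = c then sgn (ω.1 (i, j)) else 0) * x i) ^ 2 := by
  have hζ' : (0 : ℝ) < ζ := by exact_mod_cast hζ
  rw [EuclideanSpace.norm_sq_eq, Fintype.sum_prod_type, Finset.mul_sum]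
  refine Finset.sum_congr rfl fun j _ => ?_
  rw [Finset.mul_sum]
  refine Finset.sum_congr rfl fun c _ => ?_
  have h1 : sketch ω x (j, c) =
      (1 / √(ζ : ℝ)) * ∑ i, (if ω.2 (i, j) = c then sgn (ω.1 (i, j)) else 0) * x i := by
    show ∑ i, stack ω i (j, c) * x i = _
    rw [Finset.mul_sum]
    refine Finset.sum_congr rfl fun i _ => ?_
    unfold stack
    by_cases h : ω.2 (i, j) = c
    · rw [if_pos h, if_pos h, sign_eq]; ring
    · rw [if_neg h, if_neg h]; ring
  rw [h1, Real.norm_eq_abs, sq_abs, mul_pow, div_pow, Real.sq_sqrt hζ'.le, one_pow]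

open Pool.Agent.N942.Stack in
/-- the conditional probability bound -/
theorem cond_bound {n ζ b q r : ℕ} (hζ : 0 < ζ) (hq : 0 < q) {α : ℝ} (hα : 0 < α)
    (s : Fin n × Fin ζ → Fin b) :
    avg (fun σ : Fin n × Fin ζ → Bool =>
      ind (∀ x ∈ coordSub n r, α * ‖x‖ ^ 2 ≤ ‖sketch ((σ, s) : Sample n ζ b) x‖ ^ 2)) ≤
      (ζ : ℝ) / (q * α) + ind (¬ Struct n ζ b q r s) := by
  have hζ' : (0 : ℝ) < ζ := by exact_mod_cast hζ
  have hq' : (0 : ℝ) < q := by exact_mod_cast hq
  by_cases hS : Struct n ζ b q r s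
  · obtain ⟨ρ, χ, hχ, hρ, hρr, hχr, hs⟩ := hS
    have h1 : ∀ σ : Fin n × Fin ζ → Bool,
        ind (∀ x ∈ coordSub n r, α * ‖x‖ ^ 2 ≤ ‖sketch ((σ, s) : Sample n ζ b) x‖ ^ 2) ≤
        (1 / (ζ * α)) * ∑ j : Fin ζ, ∑ c : Fin b,
          (∑ i, (if s (i, j) = c then sgn (σ (i, j)) else 0) * vec ρ χ σ i) ^ 2 := by
      intro σ
      by_cases hg : ∀ x ∈ coordSub n r, α * ‖x‖ ^ 2 ≤ ‖sketch ((σ, s) : Sample n ζ b) x‖ ^ 2
      · rw [ind_true hg]
        let x : EuclideanSpace ℝ (Fin n) := WithLp.toLp 2 (vec ρ χ σ)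
        have hx : x ∈ coordSub n r := fun i hi => vec_zero hρr hχr σ i hi
        have h2 := hg x hx
        have h3 : 1 ≤ ‖x‖ ^ 2 := by
          rw [EuclideanSpace.norm_sq_eq]
          have h4 : ‖x ρ‖ ^ 2 = 1 := by
            have : x ρ = 1 := vec_root hρ σ
            rw [this]; norm_num
          rw [← h4]
          exact Finset.single_le_sum (f := fun i => ‖x i‖ ^ 2) (fun i _ => sq_nonneg _)
            (Finset.mem_univ ρ)
        rw [sketch_norm hζ] at h2
        have h5 : α ≤ 1 / (ζ : ℝ) * ∑ j : Fin ζ, ∑ c : Fin b,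
            (∑ i, (if s (i, j) = c then sgn (σ (i, j)) else 0) * vec ρ χ σ i) ^ 2 := by
          refine le_trans ?_ h2
          nlinarith
        have h6 : 1 / ((ζ : ℝ) * α) * ∑ j : Fin ζ, ∑ c : Fin b,
            (∑ i, (if s (i, j) = c then sgn (σ (i, j)) else 0) * vec ρ χ σ i) ^ 2 =
            (1 / (ζ : ℝ) * ∑ j : Fin ζ, ∑ c : Fin b,
            (∑ i, (if s (i, j) = c then sgn (σ (i, j)) else 0) * vec ρ χ σ i) ^ 2) / α := by
          field_simp
        rw [h6, le_div_iff₀ hα, one_mul]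
        exact h5
      · rw [ind_false hg]
        refine mul_nonneg (by positivity) ?_
        exact Finset.sum_nonneg fun j _ => Finset.sum_nonneg fun c _ => sq_nonneg _
    refine (avg_mono h1).trans ?_
    rw [avg_mul_left]
    have h2 := avg_norm (b := b) hq hχ hρ hs
    have h3 : (0 : ℝ) ≤ 1 / (ζ * α) := by positivity
    have h4 := mul_le_mul_of_nonneg_left h2 h3
    refine h4.trans ?_
    have h5 : 1 / ((ζ : ℝ) * α) * (ζ * ζ / q) = ζ / (q * α) := by
      field_simp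
    rw [h5]
    have := ind_nonneg (¬ Struct n ζ b q r s)
    linarith
  · rw [ind_true hS]
    have h1 : avg (fun σ : Fin n × Fin ζ → Bool =>
        ind (∀ x ∈ coordSub n r, α * ‖x‖ ^ 2 ≤ ‖sketch ((σ, s) : Sample n ζ b) x‖ ^ 2)) ≤
        avg (fun _ : Fin n × Fin ζ → Bool => (1 : ℝ)) := avg_mono fun σ => ind_le_one _
    rw [avg_const] at h1
    have : 0 ≤ (ζ : ℝ) / (q * α) := by positivity
    linarith

open Pool.Agent.N942.Stack in
theorem prob_bound {n ζ b q r : ℕ} (hζ : 0 < ζ) (hq : 0 < q) {α : ℝ} (hα : 0 < α) :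
    prob {ω : Sample n ζ b | ∀ x ∈ coordSub n r, α * ‖x‖ ^ 2 ≤ ‖sketch ω x‖ ^ 2} ≤
      (ζ : ℝ) / (q * α) + avg (fun s : Fin n × Fin ζ → Fin b => ind (¬ Struct n ζ b q r s)) := by
  rw [prob_eq, avg_prod', avg_swap]
  have h1 := avg_mono fun s : Fin n × Fin ζ → Fin b => cond_bound (r := r) hζ hq hα s
  refine h1.trans ?_
  rw [avg_add]
  by_cases hne : Nonempty (Fin n × Fin ζ → Fin b)
  · rw [avg_const]
  · have : IsEmpty (Fin n × Fin ζ → Fin b) := not_nonempty_iff.1 hne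
    have h2 : avg (fun _ : Fin n × Fin ζ → Fin b => (ζ : ℝ) / (q * α)) = 0 := by
      unfold avg; simp
    rw [h2]
    have : 0 ≤ (ζ : ℝ) / (q * α) := by positivity
    linarith

open Pool.Agent.N942.Stack in
/-- **Constant sparsity fails.**  For all constants `C₁, C₂`, every `α > 0` and every `η > 0` there
is `R` such that for all `r ≥ R` and all `n ≥ r`, every SparseStack with `1 ≤ ζ ≤ C₁`, `b ≥ 1` and
`b ζ ≤ C₂ r` fails badly on some `r`-dimensional subspace `V` of `ℝⁿ`: the probability that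
`α ‖x‖² ≤ ‖Ωᵀ x‖²` for all `x ∈ V` is at most `η`. -/
theorem result : ∀ C₁ C₂ α η : ℝ, 0 < α → 0 < η → ∃ R : ℕ, ∀ r n ζ b : ℕ, R ≤ r → r ≤ n →
    1 ≤ ζ → 1 ≤ b → (ζ : ℝ) ≤ C₁ → (b : ℝ) * ζ ≤ C₂ * r →
    ∃ V : Submodule ℝ (EuclideanSpace ℝ (Fin n)), Module.finrank ℝ V = r ∧
      prob {ω : Sample n ζ b | ∀ x ∈ V, α * ‖x‖ ^ 2 ≤ ‖sketch ω x‖ ^ 2} ≤ η := by
  intro C₁ C₂ α η hα hη
  by_cases hC₁ : 1 ≤ C₁
  swap
  · refine ⟨0, fun r n ζ b _ _ hζ _ hζC _ => ?_⟩
    have : (1 : ℝ) ≤ ζ := by exact_mod_cast hζ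
    linarith
  by_cases hC₂ : 0 < C₂
  swap
  · refine ⟨0, fun r n ζ b _ _ hζ hb _ hbC => ?_⟩
    have h1 : (1 : ℝ) ≤ ζ := by exact_mod_cast hζ
    have h2 : (1 : ℝ) ≤ b := by exact_mod_cast hb
    have h3 : (0 : ℝ) ≤ r := Nat.cast_nonneg _
    push Not at hC₂
    nlinarith
  -- the number of children per block
  obtain ⟨q, hq⟩ := exists_nat_gt (2 * C₁ / (η * α))
  have hq0 : 0 < q := by
    have h1 : (0 : ℝ) < 2 * C₁ / (η * α) := by positivity
    have : (0 : ℝ) < q := h1.trans hq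
    exact_mod_cast this
  have hqr : (0 : ℝ) < q := by exact_mod_cast hq0
  set m : ℕ := ⌊C₁⌋₊ with hm
  set Q : ℕ := m * q + 1 with hQ
  have hQ0 : 0 < Q := by omega
  have hQr : (0 : ℝ) < Q := by exact_mod_cast hQ0
  set l : ℝ := 1 / (2 * Q * C₂) with hl
  have hl0 : 0 < l := by positivity
  set h : ℝ := 1 - Real.exp (-l) with hh
  have hh0 : 0 < h := by
    rw [hh, sub_pos, Real.exp_lt_one_iff]; linarith
  have hh1 : h ≤ 1 := by
    have := Real.exp_pos (-l)
    linarith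
  set P : ℝ := (h ^ (m * q)) ^ 2 with hP
  have hP0 : 0 < P := by positivity
  obtain ⟨R₁, hR₁⟩ := exists_nat_gt ((2 * Q + C₁ ^ 2) * 2 / (η * P))
  refine ⟨max R₁ (2 * Q), fun r n ζ b hR hn hζ hb hζC hbC => ⟨coordSub n r, coord_finrank hn, ?_⟩⟩
  have hr1 : R₁ ≤ r := (le_max_left _ _).trans hR
  have hr2 : 2 * Q ≤ r := (le_max_right _ _).trans hR
  have hζr : (1 : ℝ) ≤ ζ := by exact_mod_cast hζ
  have hbr : (1 : ℝ) ≤ b := by exact_mod_cast hb
  have hr1' : (R₁ : ℝ) ≤ r := by exact_mod_cast hr1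
  have hr2' : 2 * (Q : ℝ) ≤ r := by exact_mod_cast hr2
  have hr0 : (0 : ℝ) < r := by linarith
  by_cases hk : b * ζ < r
  · -- kernel
    have h1 : {ω : Sample n ζ b | ∀ x ∈ coordSub n r, α * ‖x‖ ^ 2 ≤ ‖sketch ω x‖ ^ 2} = ∅ := by
      refine Set.eq_empty_iff_forall_notMem.2 fun ω hω => ?_
      obtain ⟨x, hx, hx0, hx1⟩ := kernel_case hn hk ω
      have h2 := hω x hx
      rw [hx1, norm_zero] at h2
      have h3 : 0 < ‖x‖ := norm_pos_iff.2 hx0
      have h4 : 0 < α * ‖x‖ ^ 2 := by positivity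
      linarith
    rw [h1, prob_eq, avg_congr fun ω => ind_false (Set.notMem_empty ω)]
    have h2 : avg (fun _ : Sample n ζ b => (0 : ℝ)) = 0 := by
      unfold avg; rw [Finset.sum_const_zero, zero_div]
    rw [h2]
    exact hη.le
  · push Not at hk
    have hkr : (r : ℝ) ≤ b * ζ := by exact_mod_cast hk
    refine (prob_bound (q := q) hζ hq0 hα).trans ?_
    set a : ℕ := r / Q with ha
    have hζm : ζ ≤ m := Nat.le_floor hζC
    have ha0 : 0 < a := Nat.div_pos (by omega) hQ0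
    have har : (0 : ℝ) < a := by exact_mod_cast ha0
    have hsz : (ζ * q + 1) * a ≤ r := by
      calc (ζ * q + 1) * a ≤ Q * a := by
            refine Nat.mul_le_mul_right a ?_
            have := Nat.mul_le_mul_right q hζm
            omega
        _ ≤ r := Nat.mul_div_le r Q
    have h1 := struct_prob (q := q) ha0 hb hsz hn
    have ha1 : (r : ℝ) / (2 * Q) ≤ a := by
      have h2 : r < Q * (a + 1) := Nat.lt_mul_div_succ r hQ0
      have h3 : (r : ℝ) < Q * (a + 1) := by exact_mod_cast h2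
      rw [div_le_iff₀ (by positivity)]
      have h4 : (1 : ℝ) ≤ a := by exact_mod_cast ha0
      nlinarith
    have hb1 : (b : ℝ) ≤ C₂ * r := by nlinarith
    have hhit : h ≤ hit a b := by
      refine hit_ge hb ?_
      refine le_trans ?_ ha1
      rw [hl, le_div_iff₀ (by positivity)]
      have : 1 / (2 * (Q : ℝ) * C₂) * b * (2 * Q) = b / C₂ := by
        field_simp
      rw [this, div_le_iff₀ hC₂]
      linarith
    have hPp : P ≤ (hit a b ^ (ζ * q)) ^ 2 := by
      rw [hP]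
      refine pow_le_pow_left₀ (by positivity) ?_ 2
      calc h ^ (m * q) ≤ h ^ (ζ * q) :=
            pow_le_pow_of_le_one hh0.le hh1 (Nat.mul_le_mul_right q hζm)
        _ ≤ hit a b ^ (ζ * q) := pow_le_pow_left₀ hh0.le hhit _
    set X := avg (fun s : Fin n × Fin ζ → Fin b => ind (¬ Struct n ζ b q r s)) with hX
    have hX0 : 0 ≤ X := avg_nonneg fun s => ind_nonneg _
    have h2 : X * P ≤ 1 / (a : ℝ) + (ζ : ℝ) / b :=
      (mul_le_mul_of_nonneg_left hPp hX0).trans h1
    have h3 : 1 / (a : ℝ) ≤ 2 * Q / r := by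
      rw [div_le_div_iff₀ har hr0, one_mul]
      rw [div_le_iff₀ (by positivity)] at ha1
      linarith
    have h4 : (ζ : ℝ) / b ≤ C₁ ^ 2 / r := by
      rw [div_le_div_iff₀ (by linarith) hr0]
      have h5 : (ζ : ℝ) * r ≤ ζ * (b * ζ) := mul_le_mul_of_nonneg_left hkr (by linarith)
      have h6 : (ζ : ℝ) * ζ ≤ C₁ ^ 2 := by
        rw [sq]; exact mul_le_mul hζC hζC (by linarith) (by linarith)
      calc (ζ : ℝ) * r ≤ ζ * (b * ζ) := h5
        _ = (ζ * ζ) * b := by ring
        _ ≤ C₁ ^ 2 * b := mul_le_mul_of_nonneg_right h6 (by linarith)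
    have h5 : X * P ≤ (2 * Q + C₁ ^ 2) / r := by
      rw [add_div]; linarith
    have h6 : X ≤ η / 2 := by
      have h7 : (2 * Q + C₁ ^ 2) * 2 / (η * P) < r := hR₁.trans_le hr1'
      rw [div_lt_iff₀ (by positivity)] at h7
      rw [le_div_iff₀ hr0] at h5
      have h8 : X * (P * r) ≤ (η / 2) * (P * r) := by
        calc X * (P * r) = X * P * r := by ring
          _ ≤ 2 * Q + C₁ ^ 2 := h5
          _ ≤ r * (η * P) / 2 := by linarith
          _ = (η / 2) * (P * r) := by ring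
      exact le_of_mul_le_mul_right h8 (by positivity)
    have h7 : (ζ : ℝ) / (q * α) ≤ η / 2 := by
      rw [div_lt_iff₀ (by positivity)] at hq
      rw [div_le_iff₀ (by positivity)]
      calc (ζ : ℝ) ≤ C₁ := hζC
        _ ≤ q * (η * α) / 2 := by linarith
        _ = η / 2 * (q * α) := by ring
    linarith

/-- The literal negated form of Q1: for all constants `c, C₁, C₂, α₀ > 0` there are `n, r` with
`1 ≤ r ≤ n` and `r ≤ c n / log n` such that no SparseStack with `ζ ≤ C₁` and `b ζ ≤ C₂ r` is an OSI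
with parameter `α₀` (and failure probability `1/100`). -/
theorem q1_negated : ∀ c C₁ C₂ α₀ : ℝ, 0 < c → 0 < C₁ → 0 < C₂ → 0 < α₀ →
    ∃ n r : ℕ, 1 ≤ r ∧ r ≤ n ∧ (r : ℝ) ≤ c * n / Real.log n ∧
      ∀ ζ b : ℕ, 1 ≤ ζ → 1 ≤ b → (ζ : ℝ) ≤ C₁ → (b : ℝ) * ζ ≤ C₂ * r →
        ¬ IsOSI n ζ b r α₀ (1 / 100) := by
  intro c C₁ C₂ α₀ hc _ _ hα
  obtain ⟨R, hR⟩ := result C₁ C₂ α₀ (1 / 2) hα (by norm_num)
  set r := max R 1 with hr
  have hr1 : 1 ≤ r := le_max_right _ _
  have hr0 : (0 : ℝ) < r := by exact_mod_cast hr1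
  have h1 := (Real.isLittleO_log_id_atTop.def (c := c / r) (by positivity))
  have h2 := tendsto_natCast_atTop_atTop (R := ℝ) |>.eventually h1
  obtain ⟨n, hn1, hn2⟩ := (h2.and (Filter.eventually_ge_atTop (max r 2))).exists
  have hnr : r ≤ n := (le_max_left _ _).trans hn2
  have hn3 : 2 ≤ n := (le_max_right _ _).trans hn2
  have hn4 : (2 : ℝ) ≤ n := by exact_mod_cast hn3
  refine ⟨n, r, hr1, hnr, ?_, fun ζ b hζ hb hζC hbC hOSI => ?_⟩
  · have hlog : 0 < Real.log n := Real.log_pos (by linarith)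
    rw [id, Real.norm_of_nonneg hlog.le, Real.norm_of_nonneg (by linarith : (0 : ℝ) ≤ n),
      div_mul_eq_mul_div, le_div_iff₀ hr0] at hn1
    rw [le_div_iff₀ hlog]
    linarith
  · obtain ⟨V, hV, hp⟩ := hR r n ζ b (le_max_left _ _) hnr hζ hb hζC hbC
    have := hOSI.2 V hV
    linarith

/-- The negative answer to Q2 in a strong form: for every `α₀ > 0`, for all sufficiently large `b`
and all `n ≥ 2 b`, the SparseStack with `ζ = 4` and `k = 4 b = 2 r`, `r = 2 b`, is not an OSI for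
`r`-dimensional subspaces with parameter `α₀` (and failure probability `1/100`). -/
theorem q2_negated : ∀ α₀ : ℝ, 0 < α₀ → ∃ B : ℕ, ∀ b n : ℕ, B ≤ b → 2 * b ≤ n →
    ¬ IsOSI n 4 b (2 * b) α₀ (1 / 100) := by
  intro α₀ hα
  obtain ⟨R, hR⟩ := result 4 2 α₀ (1 / 2) hα (by norm_num)
  refine ⟨max R 1, fun b n hb hn hOSI => ?_⟩
  have hb1 : R ≤ b := (le_max_left _ _).trans hb
  have hb2 : 1 ≤ b := (le_max_right _ _).trans hb
  obtain ⟨V, hV, hp⟩ := hR (2 * b) n 4 b (by omega) hn (by norm_num) hb2 (by norm_num)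
    (by push_cast; linarith)
  have := hOSI.2 V hV
  linarith

end Pool.Agent.Results.MP_59a663_pr.ConstantSparsityFails
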